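import Mathlib
import Pool.Agent.R810.DF.Main

/-!
# A two-strand pure braid which is trivial up to self-crossing changes

Let `a` be the arrow from the first to the second strand and `b` the arrow from the second to the
first strand (both positive), so that `vP_2` and `wP_2` are free on `a` and `b`.  The braid

  `β = a b b a (b a a b)⁻¹`

is not trivial in `vP_2`, not trivial in `wP_2`, and even its image in `wSL_2` is not trivial; but
it is trivial in `vSL_2^sc`, and hence also in `wSL_2^sc`.

Proof.  Non-triviality: colourings by the conjugation quandle of the symmetric group `S_3`.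
Triviality: let `s`, `s'` be two places on one strand and `t` a place on the other strand.  Insert two
cancelling self-arrows `c`, `c⁻¹` from `s` to `s'`; up to self-crossing changes `c⁻¹` is also the
positive arrow from `s'` to `s`, and four moves R3 show that `a_{st} a_{ts}` commutes with
`a_{ts'} a_{s't}`.  This is used once for each of the two strands: `(a b)(b a) = (b a)(a b)`.
-/

set_option autoImplicit false

namespace Pool.Agent.Results.MP_dfcdcf_gt.SelfCrossingKernel

open Pool.Agent.W612.WSL Pool.Agent.R810.DF

/-- There is a monotone diagram on 2 strands which is non-trivial in `vP_2`, in `wP_2` and in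
`wSL_2`, but trivial in `vSL_2^sc` and in `wSL_2^sc`. -/
theorem result : ∃ β : BraidDiagram 2,
    (Quot.mk _ β : VP 2) ≠ Quot.mk _ (trivialBraid 2) ∧
    (Quot.mk _ β : WP 2) ≠ Quot.mk _ (trivialBraid 2) ∧
    (Quot.mk _ β.1 : WSL 2) ≠ Quot.mk _ (trivialDiagram 2) ∧
    (Quot.mk _ β.1 : VSLsc 2) = Quot.mk _ (trivialDiagram 2) ∧
    (Quot.mk _ β.1 : WSLsc 2) = Quot.mk _ (trivialDiagram 2) :=
  ⟨B0, B0_vp, B0_wp, D0_wsl, D0_vslsc, D0_wslsc⟩

end Pool.Agent.Results.MP_dfcdcf_gt.SelfCrossingKernel
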